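import Pool.Agent.NH3.LT.PA3
import Pool.Agent.NH3.LT.PA4
import Pool.Agent.H95R2.Leh.Congr

set_option autoImplicit false

/-!
# Polynomial values `n` that are composite with `φ(n) ∣ n - a(n)`, short intervals of arguments

If the complex roots of `f - 1` have multiplicity at most `e`, then among the arguments in `(x, x + y]`
at most `C y^(e/(e+1)) (x + y)^ε` have such a value; for `f - 1` without multiple roots the exponent
of `y` is `1/2`.
-/

namespace Pool.Agent.Results.MP_b50d59_nt.PolynomialValuesRootMultiplicity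

open Polynomial

open Classical in
/-- Let `f` be a nonconstant polynomial with integer coefficients, `e ≥ 1`, and suppose that no complex
number is a root of `f - 1` with multiplicity larger than `e`. For every `ε > 0` there is `C` such that
for all `x` and all `y ≥ 1` there are at most `C y^(e/(e+1)) (x + y)^ε` integers `m` in `(x, x + y]` for
which `f(m)` is a composite integer `n > 4` with `φ(n) ∣ n - a(n)`, where `a(n)` is the largest
exponent in the prime factorisation of `n`. -/
theorem result (f : ℤ[X]) (hf : 1 ≤ f.natDegree) (e : ℕ) (he : 1 ≤ e)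
    (hm : ∀ z : ℂ, ((f - 1).map (Int.castRingHom ℂ)).rootMultiplicity z ≤ e)
    (ε : ℝ) (hε : 0 < ε) :
    ∃ C : ℝ, 0 < C ∧ ∀ x y : ℕ, 1 ≤ y →
      (((Finset.Ioc x (x + y)).filter (fun m : ℕ => ∃ n : ℕ, f.eval (m : ℤ) = n ∧
        4 < n ∧ ¬ n.Prime ∧ n.totient ∣ (n - Nca8c8b9b.a n))).card : ℝ) ≤
      C * (y : ℝ) ^ ((e : ℝ) / (e + 1)) * ((x : ℝ) + y) ^ ε := by
  have hg : f - 1 ≠ 0 := by
    intro h0
    rw [sub_eq_zero] at h0
    rw [h0, natDegree_one] at hf
    omega
  obtain ⟨h, t, u, w, c, R, hc, hR, h1, h2⟩ := Pool.Agent.NH3.LT.exists_rad (f - 1) hg e hm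
  rw [← C_1] at h1
  obtain ⟨C, hC, hcount⟩ := Pool.Agent.NH3.LT.count_poly f t h u w c R rfl hf he hc hR h1 h2 ε hε
  refine ⟨C, hC, fun x y hy => hcount x y hy _ ?_⟩
  intro m hm
  rw [Finset.mem_filter] at hm
  obtain ⟨h1, n, h2, h3, h4, h5⟩ := hm
  exact ⟨h1, n, h2, Pool.Agent.H95R2.Leh.leh_of_congr h3 h4 h5⟩

end Pool.Agent.Results.MP_b50d59_nt.PolynomialValuesRootMultiplicity
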