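import Pool.Agent.NH76.LT.Omg
import Pool.Agent.H95R2.Leh.Congr
import Pool.Prelude.Def_F_72ad9e24

set_option autoImplicit false

/-!
# The predecessor of a composite solution: `(n - 1) / φ(n - 1) ≥ c exp(c k) log p`

Let `n` be a solution with `n - 1 = k φ(n)` and let `p` be its least prime factor.  Every prime factor
`r` of `n` satisfies `r - 1 ∣ n - 1`, hence `r ≢ 1 (mod q)` for every prime `q` that does *not* divide
`n - 1`.  Sieving with this second class modulo all these `q` shows that the sum of `1 / r` over the prime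
factors `r > z` of `n` is at most `C ρ / log z`, where `ρ = (n - 1) / φ(n - 1)`
(`Pool.Agent.NH76.LT.tail_sum`).  Below `z = e^ρ` the prime factors of `n` are sparse because none is
`1` modulo another one, and together this gives `k ≤ C (1 + log (1 + ρ / log p))`
(`Pool.Agent.NH76.LT.ratio_main`).
-/

namespace Pool.Agent.Results.MP_b50d59_nt.PredecessorQuotient

/-- There is `c > 0` such that for every composite integer `n > 4` with `n - a(n) = k φ(n)`, where `a(n)`
is the largest exponent in the prime factorisation of `n`, and with least prime factor `p`,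
`(n - 1) / φ(n - 1) ≥ c exp(c k) log p`. -/
theorem result : ∃ c : ℝ, 0 < c ∧ ∀ n k : ℕ, 4 < n → ¬ n.Prime →
    n - Nca8c8b9b.a n = k * n.totient →
    c * Real.exp (c * k) * Real.log (n.minFac : ℝ) ≤ ((n - 1 : ℕ) : ℝ) / (n - 1).totient := by
  obtain ⟨c, hc, h⟩ := Pool.Agent.NH76.LT.leh_exp
  refine ⟨c, hc, ?_⟩
  intro n k h4 hp hk
  have hL := Pool.Agent.H95R2.Leh.leh_of_congr h4 hp ⟨k, by rw [hk, mul_comm]⟩
  rw [Pool.Agent.NH3.LT.a_eq_one hL] at hk
  exact (h n k hL hk).1

end Pool.Agent.Results.MP_b50d59_nt.PredecessorQuotient
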