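import Pool.Agent.NH3.LT.SP2
import Pool.Agent.H95R2.Leh.Congr

/-!
# Composite `n` with `φ(n) ∣ n - a(n)` whose prime factors lie in a given set

Call such `n > 4` solutions. If the number of primes `≤ t` of a set `P` is `O(t^θ)`, then an interval
`(x, x + y]` contains `O(y^(θ/2) (x + y)^ε)` solutions all of whose prime factors belong to `P`; it
contains `O(y^((1 - 1/A)/2) (x + y)^ε)` solutions with all prime factors `≤ (log (x + y))^A`.
-/

set_option autoImplicit false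

namespace Pool.Agent.Results.MP_b50d59_nt.PrimesFromGivenSet

open Finset
open Pool.Agent.H95R2.Leh Pool.Agent.NH3.LT

open Classical in
/-- Three statements about the composite `n > 4` with `φ(n) ∣ n - a(n)`, where `a(n)` is the largest
exponent in the prime factorisation of `n`.
(1) For every set `P`, `0 ≤ σ ≤ 2`, all `x` and `y, K ≥ 1` at most
`514 (y K³)^(σ/2) ∏ (1 + p^(-σ))`, product over the primes `p ≤ √(y K³)` of `P`, of these `n` with at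
most `K` prime factors, all of them in `P`, lie in `(x, x + y]`.
(2) If `P` has at most `B t^θ` primes up to `t` for all `t ≥ 1`, where `0 ≤ θ ≤ 1`, then for every
`ε > 0` there is `C` such that for all `x` and `y ≥ 1` at most `C y^(θ/2) (x + y)^ε` of these `n` with
all prime factors in `P` lie in `(x, x + y]`.
(3) For all `A ≥ 1` and `ε > 0` there is `C` such that for all `x` and `y ≥ 1` at most
`C y^((1 - 1/A)/2) (x + y)^ε` of these `n` without prime factors above `(log (x + y))^A` lie in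
`(x, x + y]`. -/
theorem result :
    (∀ (P : Set ℕ) (σ : ℝ), 0 ≤ σ → σ ≤ 2 → ∀ x y K : ℕ, 1 ≤ y → 1 ≤ K →
      (((Finset.Ioc x (x + y)).filter (fun n : ℕ =>
        (4 < n ∧ ¬ n.Prime ∧ n.totient ∣ (n - Nca8c8b9b.a n)) ∧
        (∀ p : ℕ, p.Prime → p ∣ n → p ∈ P) ∧ n.primeFactors.card ≤ K)).card : ℝ) ≤
      514 * ((y : ℝ) * (K : ℝ) ^ 3) ^ (σ / 2) *
        ∏ p ∈ (Finset.Icc 1 ⌊Real.sqrt ((y : ℝ) * (K : ℝ) ^ 3)⌋₊).filter
          (fun p : ℕ => p.Prime ∧ p ∈ P), (1 + (p : ℝ) ^ (-σ))) ∧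
    (∀ (P : Set ℕ) (θ B : ℝ), 0 ≤ θ → θ ≤ 1 →
      (∀ t : ℕ, 1 ≤ t →
        (((Finset.Icc 1 t).filter (fun p : ℕ => p.Prime ∧ p ∈ P)).card : ℝ) ≤ B * (t : ℝ) ^ θ) →
      ∀ ε : ℝ, 0 < ε → ∃ C : ℝ, 0 < C ∧ ∀ x y : ℕ, 1 ≤ y →
      (((Finset.Ioc x (x + y)).filter (fun n : ℕ =>
        (4 < n ∧ ¬ n.Prime ∧ n.totient ∣ (n - Nca8c8b9b.a n)) ∧
        ∀ p : ℕ, p.Prime → p ∣ n → p ∈ P)).card : ℝ) ≤
      C * (y : ℝ) ^ (θ / 2) * ((x : ℝ) + y) ^ ε) ∧
    (∀ A ε : ℝ, 1 ≤ A → 0 < ε → ∃ C : ℝ, 0 < C ∧ ∀ x y : ℕ, 1 ≤ y →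
      (((Finset.Ioc x (x + y)).filter (fun n : ℕ =>
        (4 < n ∧ ¬ n.Prime ∧ n.totient ∣ (n - Nca8c8b9b.a n)) ∧
        ∀ p : ℕ, p.Prime → p ∣ n → (p : ℝ) ≤ (Real.log ((x : ℝ) + y)) ^ A)).card : ℝ) ≤
      C * (y : ℝ) ^ ((1 - 1 / A) / 2) * ((x : ℝ) + y) ^ ε) := by
  refine ⟨?_, ?_, ?_⟩
  · intro P σ h0 h2 x y K hy hK
    refine le_trans ?_ (prime_set P σ h0 h2 x y K hy hK)
    apply Nat.cast_le.2
    apply card_le_card
    intro n hn
    rw [mem_filter] at hn ⊢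
    exact ⟨hn.1, leh_of_congr hn.2.1.1 hn.2.1.2.1 hn.2.1.2.2, hn.2.2⟩
  · intro P θ B h0 h1 hP ε hε
    have hB : 0 ≤ B := by
      have h2 := hP 1 le_rfl
      simp only [Nat.cast_one, Real.one_rpow, mul_one] at h2
      exact le_trans (Nat.cast_nonneg _) h2
    obtain ⟨C, hC, h⟩ := sparse_count P θ B ε h0 h1 hB hP hε
    refine ⟨C, hC, fun x y hy => le_trans ?_ (h x y hy)⟩
    apply Nat.cast_le.2
    apply card_le_card
    intro n hn
    rw [mem_filter] at hn ⊢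
    exact ⟨hn.1, leh_of_congr hn.2.1.1 hn.2.1.2.1 hn.2.1.2.2, hn.2.2⟩
  · intro A ε hA hε
    obtain ⟨C, hC, h⟩ := friable_count A ε hA hε
    refine ⟨C, hC, fun x y hy => le_trans ?_ (h x y hy)⟩
    apply Nat.cast_le.2
    apply card_le_card
    intro n hn
    rw [mem_filter] at hn ⊢
    exact ⟨hn.1, leh_of_congr hn.2.1.1 hn.2.1.2.1 hn.2.1.2.2, hn.2.2⟩

end Pool.Agent.Results.MP_b50d59_nt.PrimesFromGivenSet
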