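import Pool.Agent.NH3.LT.AP
import Pool.Agent.H95R2.Leh.Congr

/-!
# Composite `n` with `φ(n) ∣ n - a(n)` in residue classes and short intervals

For the class `b mod m` let `u = gcd(m, b)`, `v = gcd(m, b - 1)`. An interval `(x, x + y]` contains at
most `C √(y v u log (x + y + 1) / (m φ(u))) + 1` solutions in the class.
-/

set_option autoImplicit false

namespace Pool.Agent.Results.MP_b50d59_nt.ResidueClassesShortIntervals

open Finset
open Pool.Agent.H95R2.Leh

/-- There is `C` such that for all `x`, all `y, m ≥ 1` and all integers `b`, with `u = gcd(m, b)` and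
`v = gcd(m, b - 1)`, the interval `(x, x + y]` contains at most
`C √(y log (x + y + 1) v u / (m φ(u))) + 1` composite integers `n > 4` with `φ(n) ∣ n - a(n)` and
`n ≡ b (mod m)`, and for every `K ≥ 1` at most `C √(y K v u / (m φ(u))) + 1` of them with at most `K`
prime factors; here `a(n)` is the largest exponent in the prime factorisation of `n`. -/
theorem result : ∃ C : ℝ, 0 < C ∧ ∀ (x y m : ℕ) (b : ℤ), 1 ≤ y → 1 ≤ m →
    (((Finset.Ioc x (x + y)).filter (fun n : ℕ =>
      (4 < n ∧ ¬ n.Prime ∧ n.totient ∣ (n - Nca8c8b9b.a n)) ∧ (n : ℤ) ≡ b [ZMOD m])).card : ℝ) ≤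
      C * Real.sqrt ((y : ℝ) * Real.log ((x : ℝ) + y + 1) * Int.gcd m (b - 1) * Int.gcd m b /
        (m * Nat.totient (Int.gcd m b))) + 1 ∧
    ∀ K : ℕ, 1 ≤ K → (((Finset.Ioc x (x + y)).filter (fun n : ℕ =>
      (4 < n ∧ ¬ n.Prime ∧ n.totient ∣ (n - Nca8c8b9b.a n)) ∧ (n : ℤ) ≡ b [ZMOD m] ∧
        n.primeFactors.card ≤ K)).card : ℝ) ≤
      C * Real.sqrt ((y : ℝ) * K * Int.gcd m (b - 1) * Int.gcd m b /
        (m * Nat.totient (Int.gcd m b))) + 1 := by
  classical
  obtain ⟨C, hC, h⟩ := Pool.Agent.NH3.LT.ap_count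
  have hK : ∀ (x y m K : ℕ) (b : ℤ), 1 ≤ y → 1 ≤ m → 1 ≤ K →
      (((Finset.Ioc x (x + y)).filter (fun n : ℕ =>
      (4 < n ∧ ¬ n.Prime ∧ n.totient ∣ (n - Nca8c8b9b.a n)) ∧ (n : ℤ) ≡ b [ZMOD m] ∧
        n.primeFactors.card ≤ K)).card : ℝ) ≤
      C * Real.sqrt ((y : ℝ) * K * Int.gcd m (b - 1) * Int.gcd m b /
        (m * Nat.totient (Int.gcd m b))) + 1 := by
    intro x y m K b hy hm hK
    refine le_trans ?_ (h x y m K b hy hm hK)
    apply Nat.cast_le.2
    apply Finset.card_le_card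
    intro n hn
    rw [Finset.mem_filter, Finset.mem_Ioc] at hn
    rw [Pool.Agent.NH3.LT.mem_SB]
    obtain ⟨h1, ⟨h2, h3, h4⟩, h5, h6⟩ := hn
    exact ⟨h1, leh_of_congr h2 h3 h4, h6, (Int.modEq_iff_dvd.1 h5.symm)⟩
  refine ⟨2 * C, by linarith, ?_⟩
  intro x y m b hy hm
  have hyR : (1 : ℝ) ≤ y := by exact_mod_cast hy
  have hxR : (0 : ℝ) ≤ x := Nat.cast_nonneg x
  constructor
  · have hl2 := Real.log_two_gt_d9
    have hl2p : 0 < Real.log 2 := by linarith
    obtain ⟨K, hKd⟩ : ∃ K : ℕ, K = ⌊Real.log ((x : ℝ) + y) / Real.log 2⌋₊ + 1 := ⟨_, rfl⟩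
    have hlog0 : 0 ≤ Real.log ((x : ℝ) + y) := Real.log_nonneg (by linarith)
    have hlog1 : Real.log ((x : ℝ) + y) ≤ Real.log ((x : ℝ) + y + 1) :=
      Real.log_le_log (by linarith) (by linarith)
    have hlog2 : Real.log 2 ≤ Real.log ((x : ℝ) + y + 1) := Real.log_le_log (by norm_num) (by linarith)
    have hKle : (K : ℝ) ≤ 4 * Real.log ((x : ℝ) + y + 1) := by
      have h1 : (K : ℝ) ≤ Real.log ((x : ℝ) + y) / Real.log 2 + 1 := by
        rw [hKd]
        push_cast
        have := Nat.floor_le (div_nonneg hlog0 hl2p.le)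
        linarith
      have h2 : Real.log ((x : ℝ) + y) / Real.log 2 ≤ 3 / 2 * Real.log ((x : ℝ) + y + 1) := by
        rw [div_le_iff₀ hl2p]
        nlinarith
      linarith
    have h1 := hK x y m K b hy hm (by rw [hKd]; omega)
    have hsub : (Finset.Ioc x (x + y)).filter (fun n : ℕ =>
        (4 < n ∧ ¬ n.Prime ∧ n.totient ∣ (n - Nca8c8b9b.a n)) ∧ (n : ℤ) ≡ b [ZMOD m]) ⊆
        (Finset.Ioc x (x + y)).filter (fun n : ℕ =>
        (4 < n ∧ ¬ n.Prime ∧ n.totient ∣ (n - Nca8c8b9b.a n)) ∧ (n : ℤ) ≡ b [ZMOD m] ∧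
          n.primeFactors.card ≤ K) := by
      intro n hn
      rw [Finset.mem_filter] at hn ⊢
      refine ⟨hn.1, hn.2.1, hn.2.2, ?_⟩
      have h2 := Tot.card_le n (by have := hn.2.1.1; omega)
      have hnx : (n : ℝ) ≤ x + y := by
        have := (Finset.mem_Ioc.1 hn.1).2
        exact_mod_cast this
      have hn0 : (0 : ℝ) < n := by
        have : 0 < n := by have := hn.2.1.1; omega
        exact_mod_cast this
      have h3 : Real.log n ≤ Real.log ((x : ℝ) + y) := Real.log_le_log hn0 hnx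
      have h4 : (n.primeFactors.card : ℝ) ≤ Real.log ((x : ℝ) + y) / Real.log 2 := by
        rw [le_div_iff₀ hl2p]
        linarith
      have h5 : n.primeFactors.card ≤ ⌊Real.log ((x : ℝ) + y) / Real.log 2⌋₊ := Nat.le_floor h4
      omega
    refine (Nat.cast_le.2 (Finset.card_le_card hsub)).trans (h1.trans ?_)
    have hnn : (0 : ℝ) ≤ (y : ℝ) * (Int.gcd m (b - 1) : ℝ) * (Int.gcd m b : ℝ) /
        (m * Nat.totient (Int.gcd m b)) := by positivity
    have h6 : C * Real.sqrt ((y : ℝ) * K * Int.gcd m (b - 1) * Int.gcd m b /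
        (m * Nat.totient (Int.gcd m b))) ≤
        2 * C * Real.sqrt ((y : ℝ) * Real.log ((x : ℝ) + y + 1) * Int.gcd m (b - 1) *
          Int.gcd m b / (m * Nat.totient (Int.gcd m b))) := by
      calc C * Real.sqrt ((y : ℝ) * K * Int.gcd m (b - 1) * Int.gcd m b /
          (m * Nat.totient (Int.gcd m b))) ≤
          C * Real.sqrt (2 ^ 2 * ((y : ℝ) * Real.log ((x : ℝ) + y + 1) * Int.gcd m (b - 1) *
            Int.gcd m b / (m * Nat.totient (Int.gcd m b)))) := by
            apply mul_le_mul_of_nonneg_left _ (by linarith)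
            apply Real.sqrt_le_sqrt
            calc (y : ℝ) * K * Int.gcd m (b - 1) * Int.gcd m b / (m * Nat.totient (Int.gcd m b)) =
                K * ((y : ℝ) * (Int.gcd m (b - 1) : ℝ) * (Int.gcd m b : ℝ) /
                  (m * Nat.totient (Int.gcd m b))) := by ring
              _ ≤ (4 * Real.log ((x : ℝ) + y + 1)) * ((y : ℝ) * (Int.gcd m (b - 1) : ℝ) *
                  (Int.gcd m b : ℝ) / (m * Nat.totient (Int.gcd m b))) :=
                  mul_le_mul_of_nonneg_right hKle hnn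
              _ = _ := by ring
        _ = 2 * C * Real.sqrt ((y : ℝ) * Real.log ((x : ℝ) + y + 1) * Int.gcd m (b - 1) *
          Int.gcd m b / (m * Nat.totient (Int.gcd m b))) := by
            rw [Real.sqrt_mul (by norm_num), Real.sqrt_sq (by norm_num)]
            ring
    linarith
  · intro K hK1
    refine (hK x y m K b hy hm hK1).trans ?_
    have : 0 ≤ C * Real.sqrt ((y : ℝ) * K * Int.gcd m (b - 1) * Int.gcd m b /
        (m * Nat.totient (Int.gcd m b))) := mul_nonneg (by linarith) (Real.sqrt_nonneg _)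
    linarith

end Pool.Agent.Results.MP_b50d59_nt.ResidueClassesShortIntervals
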